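import Mathlib

/-!
MP_50ee63_gt: the zeros of the successive derivatives of a polynomial, all of whose derivatives are
separable, form a balanced configuration.
-/

set_option autoImplicit false

namespace Pool.Agent.H22.NB

open Polynomial

/-- the antiderivative without constant term -/
noncomputable def anti (p : ℂ[X]) : ℂ[X] := p.sum fun i a => monomial (i + 1) (a / (i + 1))

theorem derivative_anti (p : ℂ[X]) : derivative (anti p) = p := by
  unfold anti
  rw [Polynomial.sum_def, derivative_sum]
  conv_rhs => rw [← Polynomial.sum_monomial_eq p, Polynomial.sum_def]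
  refine Finset.sum_congr rfl fun i _ => ?_
  rw [derivative_monomial]
  have h : ((i : ℂ) + 1) ≠ 0 := by exact_mod_cast Nat.succ_ne_zero i
  congr 1
  push_cast
  field_simp

theorem separable_of (p q : ℂ[X]) (hq : derivative p = q) (h : ∀ z, q.eval z = 0 → p.eval z ≠ 0) :
    p.Separable := by
  unfold Polynomial.Separable
  rw [hq]
  refine (Polynomial.isCoprime_iff_aeval_ne_zero_of_isAlgClosed ℂ ℂ p q).2 fun a => ?_
  by_cases h1 : q.eval a = 0
  · left; simpa using h a h1
  · right; simpa using h1

theorem exists_chain (n : ℕ) : ∃ P : ℕ → ℂ[X], (∀ k ≤ n, (P k).natDegree = n - k) ∧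
    (∀ k, P (k + 1) = derivative (P k)) ∧ (∀ k ≤ n, (P k).Separable) ∧ ∀ k, n < k → P k = 0 := by
  induction n with
  | zero =>
    refine ⟨fun k => if k = 0 then 1 else 0, ?_, ?_, ?_, ?_⟩
    · intro k hk
      obtain rfl : k = 0 := by omega
      simp
    · intro k
      by_cases hk : k = 0
      · simp [hk]
      · simp [hk]
    · intro k hk
      obtain rfl : k = 0 := by omega
      simp
    · intro k hk
      have : k ≠ 0 := by omega
      simp [this]
  | succ n ih =>
    obtain ⟨P, h1, h2, h3, h4⟩ := ih
    have hP0 : P 0 ≠ 0 := (h3 0 (Nat.zero_le _)).ne_zero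
    obtain ⟨c, hc⟩ := Infinite.exists_notMem_finset
      ((P 0).roots.toFinset.image fun z => -(anti (P 0)).eval z)
    set A : ℂ[X] := anti (P 0) + C c with hA
    have hAd : derivative A = P 0 := by
      rw [hA, derivative_add, derivative_C, add_zero, derivative_anti]
    have hAs : A.Separable := by
      refine separable_of A (P 0) hAd fun z hz h0 => hc ?_
      rw [Finset.mem_image]
      refine ⟨z, ?_, ?_⟩
      · rw [Multiset.mem_toFinset, mem_roots hP0]; exact hz
      · rw [hA, eval_add, eval_C] at h0
        linear_combination -h0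
    have hAn : A.natDegree = n + 1 := by
      have hpos : 0 < A.natDegree := by
        rw [Nat.pos_iff_ne_zero]
        intro h
        rw [natDegree_eq_zero] at h
        obtain ⟨x, hx⟩ := h
        rw [← hx, derivative_C] at hAd
        exact hP0 hAd.symm
      have h5 := natDegree_eq_of_degree_eq_some (degree_derivative (p := A) hpos.ne')
      rw [hAd, h1 0 (Nat.zero_le _)] at h5
      omega
    refine ⟨fun k => if k = 0 then A else P (k - 1), ?_, ?_, ?_, ?_⟩
    · intro k hk
      by_cases hk0 : k = 0
      · simp [hk0, hAn]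
      · simp only [hk0, if_false]
        rw [h1 (k - 1) (by omega)]
        omega
    · intro k
      by_cases hk0 : k = 0
      · simp [hk0, hAd]
      · simp only [hk0, if_false, Nat.succ_ne_zero, Nat.add_sub_cancel]
        obtain ⟨j, rfl⟩ : ∃ j, k = j + 1 := ⟨k - 1, by omega⟩
        simpa using h2 j
    · intro k hk
      by_cases hk0 : k = 0
      · simpa [hk0] using hAs
      · simp only [hk0, if_false]
        exact h3 (k - 1) (by omega)
    · intro k hk
      have hk0 : k ≠ 0 := by omega
      simp only [hk0, if_false]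
      exact h4 (k - 1) (by omega)

theorem sum_roots {p : ℂ[X]} (hp : p.Separable) {z : ℂ} (hz : p.eval z ≠ 0) :
    ∑ w ∈ p.roots.toFinset, 1 / (z - w) = (derivative p).eval z / p.eval z := by
  rw [(IsAlgClosed.splits p).eval_derivative_div_eval_of_ne_zero hz]
  rw [Finset.sum_multiset_map_count]
  refine Finset.sum_congr rfl fun w hw => ?_
  rw [Multiset.count_eq_one_of_mem (nodup_roots hp) (Multiset.mem_toFinset.1 hw), one_smul]

theorem sum_other {p : ℂ[X]} (hp : p.Separable) {z : ℂ} (hz : p.eval z = 0) :
    2 * ∑ w ∈ p.roots.toFinset.erase z, 1 / (z - w) =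
      (derivative (derivative p)).eval z / (derivative p).eval z := by
  have hp0 : p ≠ 0 := hp.ne_zero
  obtain ⟨q, hq⟩ := dvd_iff_isRoot.2 (show p.IsRoot z from hz)
  have hd : derivative p = q + (X - C z) * derivative q := by
    rw [hq, derivative_mul]; simp
  have hdd : derivative (derivative p) = 2 * derivative q + (X - C z) * derivative (derivative q) := by
    rw [hd, derivative_add, derivative_mul]; simp; ring
  have e1 : (derivative p).eval z = q.eval z := by rw [hd]; simp
  have e2 : (derivative (derivative p)).eval z = 2 * (derivative q).eval z := by rw [hdd]; simp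
  have hqs : q.Separable := by
    rw [hq] at hp
    exact hp.of_mul_right
  have hqz : q.eval z ≠ 0 := by
    intro h0
    have hc : IsCoprime p (derivative p) := hp
    obtain ⟨a, b, hab⟩ := hc
    have := congrArg (fun f => f.eval z) hab
    simp [hz, e1, h0] at this
  have hroots : p.roots.toFinset.erase z = q.roots.toFinset := by
    ext w
    rw [Finset.mem_erase, Multiset.mem_toFinset, Multiset.mem_toFinset, mem_roots hp0,
      mem_roots hqs.ne_zero]
    constructor
    · rintro ⟨hwz, hw⟩
      rw [hq] at hw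
      have hw' : (w - z) * q.eval w = 0 := by simpa [IsRoot] using hw
      rcases mul_eq_zero.1 hw' with h | h
      · exact absurd (sub_eq_zero.1 h) hwz
      · exact h
    · intro hw
      refine ⟨?_, ?_⟩
      · rintro rfl
        exact hqz hw
      · show p.eval w = 0
        rw [hq, eval_mul, show q.eval w = 0 from hw, mul_zero]
  rw [hroots, sum_roots hqs hqz, e1, e2, mul_div_assoc]

/-- for every `n` there are finite sets `R k` with `n - k` elements such that consecutive ones are
disjoint and the forces of the configuration with equal charges vanish -/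
theorem sharp (n : ℕ) : ∃ R : ℕ → Finset ℂ, (∀ k, (R k).card = n - k) ∧
    (∀ k, Disjoint (R k) (R (k + 1))) ∧
    (∀ k, ∀ z ∈ R k, 2 * ∑ w ∈ (R k).erase z, 1 / (z - w) = ∑ v ∈ R (k + 1), 1 / (z - v)) ∧
    (∀ k, ∀ z ∈ R (k + 1), ∑ u ∈ R k, 1 / (z - u) = 0) := by
  obtain ⟨P, h1, h2, h3, h4⟩ := exists_chain n
  have hR : ∀ k, n < k → (P k).roots.toFinset = ∅ := fun k hk => by rw [h4 k hk]; simp
  have hmem : ∀ k, ∀ z, z ∈ (P k).roots.toFinset → k ≤ n ∧ (P k).eval z = 0 := by
    intro k z hz
    have hk : k ≤ n := by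
      by_contra h
      rw [hR k (by omega)] at hz
      simp at hz
    refine ⟨hk, ?_⟩
    rw [Multiset.mem_toFinset, mem_roots (h3 k hk).ne_zero] at hz
    exact hz
  have hnc : ∀ k, k ≤ n → ∀ z, (P k).eval z = 0 → (P (k + 1)).eval z ≠ 0 := by
    intro k hk z hz h0
    have hc : IsCoprime (P k) (derivative (P k)) := h3 k hk
    rw [← h2 k] at hc
    obtain ⟨a, b, hab⟩ := hc
    have := congrArg (fun f => f.eval z) hab
    simp [hz, h0] at this
  have hlt : ∀ k, k ≤ n → ∀ z, (P k).eval z = 0 → k + 1 ≤ n := by
    intro k hk z hz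
    by_contra h
    have : P (k + 1) = 0 := h4 (k + 1) (by omega)
    exact hnc k hk z hz (by rw [this]; simp)
  refine ⟨fun k => (P k).roots.toFinset, ?_, ?_, ?_, ?_⟩
  · intro k
    by_cases hk : k ≤ n
    · show (P k).roots.toFinset.card = n - k
      rw [Multiset.toFinset_card_of_nodup (nodup_roots (h3 k hk)),
        ← (IsAlgClosed.splits (P k)).natDegree_eq_card_roots, h1 k hk]
    · show (P k).roots.toFinset.card = n - k
      rw [hR k (by omega)]
      simp; omega
  · intro k
    rw [Finset.disjoint_left]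
    intro z hz hz'
    exact hnc k (hmem k z hz).1 z (hmem k z hz).2 (hmem (k + 1) z hz').2
  · intro k z hz
    obtain ⟨hk, h0⟩ := hmem k z hz
    show 2 * ∑ w ∈ (P k).roots.toFinset.erase z, 1 / (z - w) =
      ∑ v ∈ (P (k + 1)).roots.toFinset, 1 / (z - v)
    rw [sum_other (h3 k hk) h0, sum_roots (h3 (k + 1) (hlt k hk z h0)) (hnc k hk z h0), ← h2 k]
  · intro k z hz
    obtain ⟨hk, h0⟩ := hmem (k + 1) z hz
    have hkz : (P k).eval z ≠ 0 := fun h => hnc k (by omega) z h h0
    show ∑ u ∈ (P k).roots.toFinset, 1 / (z - u) = 0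
    rw [sum_roots (h3 k (by omega)) hkz, ← h2 k, h0, zero_div]

/-- the same in the numbering of neck levels `1, ..., m` (between the planes `1, ..., m + 1`), with
`R 0 = R (m + 1) = ∅`; the charges are all equal -/
theorem sharp' (m : ℕ) : ∃ R : ℕ → Finset ℂ, R 0 = ∅ ∧ (∀ k, m < k → R k = ∅) ∧
    (∀ k < m, (R (k + 1)).card = m - k) ∧ (∀ k, Disjoint (R k) (R (k + 1))) ∧
    ∀ k, ∀ z ∈ R (k + 1), 2 * ∑ w ∈ (R (k + 1)).erase z, 1 / (z - w) =
      ∑ v ∈ R (k + 2), 1 / (z - v) + ∑ u ∈ R k, 1 / (z - u) := by
  obtain ⟨R, h1, h2, h3, h4⟩ := sharp m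
  refine ⟨fun k => if k = 0 then ∅ else R (k - 1), by simp, ?_, ?_, ?_, ?_⟩
  · intro k hk
    have hk0 : k ≠ 0 := by omega
    simp only [hk0, if_false]
    rw [← Finset.card_eq_zero, h1]
    omega
  · intro k hk
    simp [h1]
  · intro k
    by_cases hk : k = 0
    · simp [hk]
    · obtain ⟨j, rfl⟩ : ∃ j, k = j + 1 := ⟨k - 1, by omega⟩
      simpa using h2 j
  · intro k z hz
    have hz' : z ∈ R k := by simpa using hz
    have e := h3 k z hz'
    by_cases hk : k = 0
    · subst hk
      simpa using e
    · obtain ⟨j, rfl⟩ : ∃ j, k = j + 1 := ⟨k - 1, by omega⟩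
      have e4 := h4 j z hz'
      simp only [Nat.succ_ne_zero, if_false, Nat.add_sub_cancel] at *
      rw [e4, add_zero]
      exact e

end Pool.Agent.H22.NB
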