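import Pool.Agent.H62.HM.Moment
import Pool.Agent.H22.NB.Sharp

/-!
MP_50ee63_gt: the balanced configuration with `N` ends and `N (N - 1) / 2` necks.
-/

set_option autoImplicit false

namespace Pool.Agent.H22.NB

open Finset Pool.Agent.H62.HM

theorem sumQ (N k : ℕ) : ∑ j ∈ range (k + 1), (if j = 0 then ((N : ℝ) - 1) else -1) = N - 1 - k := by
  induction k with
  | zero => simp
  | succ k ih => rw [sum_range_succ, ih, if_neg (Nat.succ_ne_zero k)]; push_cast; ring

theorem exists_balanced (N : ℕ) (hN : 2 ≤ N) :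
    ∃ (n : ℕ → ℕ) (Q : ℕ → ℝ) (p : (k : ℕ) → Fin (n k) → ℂ), Balanced N n Q p ∧
      (∀ j, j + 1 < N → Q (j + 1) ≤ Q j) ∧ Q 0 ≠ 0 ∧
      2 * ∑ k ∈ range (N - 1), n k = N * (N - 1) := by
  obtain ⟨R, h1, h2, h3, h4⟩ := sharp (N - 1)
  set n : ℕ → ℕ := fun k => N - 1 - k with hn
  set Q : ℕ → ℝ := fun j => if j = 0 then ((N : ℝ) - 1) else -1 with hQ
  set p : (k : ℕ) → Fin (n k) → ℂ := fun k i => (((R k).equivFinOfCardEq (h1 k)).symm i : ℂ) with hp
  have hNr : (2 : ℝ) ≤ N := by exact_mod_cast hN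
  have hinj : ∀ k, Function.Injective (p k) := fun k =>
    Subtype.val_injective.comp ((R k).equivFinOfCardEq (h1 k)).symm.injective
  have himg : ∀ k, univ.image (p k) = R k := by
    intro k
    ext w
    simp only [mem_image, mem_univ, true_and]
    constructor
    · rintro ⟨i, rfl⟩
      exact (((R k).equivFinOfCardEq (h1 k)).symm i).2
    · intro hw
      exact ⟨(R k).equivFinOfCardEq (h1 k) ⟨w, hw⟩, by simp [hp]⟩
  have hpm : ∀ k i, p k i ∈ R k := fun k i => by
    rw [← himg k]; exact mem_image_of_mem _ (mem_univ i)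
  have hsize : ∀ k, k + 1 < N → size n Q k = 1 := by
    intro k hk
    have e1 : ∑ j ∈ range (k + 1), Q j = N - 1 - k := sumQ N k
    have e2 : ((n k : ℕ) : ℝ) = N - 1 - k := by
      rw [hn]
      show ((N - 1 - k : ℕ) : ℝ) = _
      rw [Nat.cast_sub (by omega), Nat.cast_sub (by omega), Nat.cast_one]
    have hkr : (k : ℝ) + 1 < N := by exact_mod_cast hk
    unfold size
    rw [e1, e2]
    exact div_self (by linarith)
  refine ⟨n, Q, p, ⟨?_, fun k _ => hinj k, ?_, ?_, ?_⟩, ?_, ?_, ?_⟩
  · intro k hk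
    show 1 ≤ N - 1 - k
    omega
  · intro k _ i j e
    have := hpm k i
    rw [e] at this
    exact (Finset.disjoint_left.1 (h2 k)) this (hpm (k + 1) j)
  · obtain ⟨m, rfl⟩ : ∃ m, N = m + 1 := ⟨N - 1, by omega⟩
    have := sumQ (m + 1) m
    rw [hQ]
    simp only
    rw [this]
    push_cast; ring
  · intro k hk i
    have hT : ∀ l, ∑ j : Fin (n l), 1 / (p k i - p l j) = ∑ v ∈ R l, 1 / (p k i - v) := by
      intro l
      rw [← himg l, sum_image fun a _ b _ h => hinj l h]
    have hA : ∑ j ∈ univ.erase i, 1 / (p k i - p k j) = ∑ w ∈ (R k).erase (p k i), 1 / (p k i - w) := by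
      rw [← himg k, ← image_erase (hinj k), sum_image fun a _ b _ h => hinj k h]
    have hB : ∑ l ∈ (range (N - 1)).filter (fun l => l + 1 = k ∨ l = k + 1),
        ∑ v ∈ R l, 1 / (p k i - v) = ∑ v ∈ R (k + 1), 1 / (p k i - v) := by
      refine sum_eq_single (k + 1) ?_ ?_
      · intro l hl hne
        rw [mem_filter] at hl
        rcases hl.2 with h | h
        · refine h4 l (p k i) ?_
          rw [h]
          exact hpm k i
        · exact absurd h hne
      · intro h
        have : R (k + 1) = ∅ := by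
          rw [← card_eq_zero, h1]
          rw [mem_filter, mem_range] at h
          omega
        rw [this, sum_empty]
    unfold force
    rw [hsize k hk]
    have e1 : ∑ j ∈ univ.erase i, 2 * ((1 : ℝ) : ℂ) ^ 2 / (p k i - p k j) =
        2 * ∑ j ∈ univ.erase i, 1 / (p k i - p k j) := by
      rw [mul_sum]
      refine sum_congr rfl fun j _ => ?_
      push_cast
      ring
    have e2 : ∑ l ∈ (range (N - 1)).filter (fun l => l + 1 = k ∨ l = k + 1), ∑ j : Fin (n l),
        ((1 : ℝ) : ℂ) * (size n Q l : ℂ) / (p k i - p l j) =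
        ∑ l ∈ (range (N - 1)).filter (fun l => l + 1 = k ∨ l = k + 1), ∑ v ∈ R l, 1 / (p k i - v) := by
      refine sum_congr rfl fun l hl => ?_
      rw [mem_filter, mem_range] at hl
      rw [hsize l (by omega), ← hT l]
      refine sum_congr rfl fun j _ => ?_
      push_cast
      ring
    rw [e1, e2, hA, hB, h3 k (p k i) (hpm k i), sub_self]
  · intro j _
    show (if j + 1 = 0 then ((N : ℝ) - 1) else -1) ≤ if j = 0 then ((N : ℝ) - 1) else -1
    rw [if_neg (Nat.succ_ne_zero j)]
    split_ifs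
    · linarith
    · exact le_refl _
  · show (if (0 : ℕ) = 0 then ((N : ℝ) - 1) else -1) ≠ 0
    rw [if_pos rfl]
    linarith
  · obtain ⟨m, rfl⟩ : ∃ m, N = m + 1 := ⟨N - 1, by omega⟩
    show 2 * ∑ k ∈ range m, (m - k) = (m + 1) * m
    clear * -
    induction m with
    | zero => simp
    | succ m ih =>
      rw [sum_range_succ']
      simp only [Nat.add_sub_add_right, Nat.sub_zero]
      nlinarith [ih]

end Pool.Agent.H22.NB
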